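import Mathlib
import Pool.Agent.Lib.helper5.PTree
import Pool.Agent.H.MP_de06d2_co.B

namespace Pool.Agent.H.MP_7c3aa9_co.A

open SimpleGraph Finset

/-- triangle 0 1 2; hub 3 joined to 0, 1 and 5..13; hub 4 joined to 2 and 14..22. -/
def rel (u v : Fin 23) : Prop :=
  (u.val < v.val ∧ v.val < 3) ∨ (u.val = 3 ∧ (v.val < 2 ∨ (5 ≤ v.val ∧ v.val < 14))) ∨
    (u.val = 4 ∧ (v.val = 2 ∨ 14 ≤ v.val))

instance : DecidableRel rel := fun u v => by unfold rel; infer_instance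

def GG : SimpleGraph (Fin 23) := fromRel rel

instance : DecidableRel GG.Adj := fun u v => by unfold GG; rw [fromRel_adj]; infer_instance

def par (i : Fin 21) : Fin 21 := if i.val < 3 then 0 else if i.val < 12 then 1 else 2

def bag (i : Fin 21) : Finset (Fin 23) :=
  if i.val = 0 then {0, 1, 2} else if i.val = 1 then {0, 1, 3} else if i.val = 2 then {2, 4}
  else if i.val < 12 then {3, ⟨i.val + 2, by omega⟩} else {4, ⟨i.val + 2, by omega⟩}

def top (v : Fin 23) : Fin 21 := if v.val < 3 then 0 else ⟨v.val - 2, by omega⟩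

lemma hrk : ∀ v : Fin 21, v ≠ 0 → (par v).val < v.val := by decide

lemma tw2 : ∃ (m : ℕ) (T : SimpleGraph (Fin m)) (B : Fin m → Finset (Fin 23)),
      T.IsTree ∧ (∀ i, (B i).card ≤ 3) ∧ (∀ v, ∃ i, v ∈ B i) ∧
      (∀ u v, GG.Adj u v → ∃ i, u ∈ B i ∧ v ∈ B i) ∧
      (∀ v, (T.induce {i | v ∈ B i}).Connected) := by
  refine ⟨21, Lib.helper5.PTree.PT 0 par, bag, Lib.helper5.PTree.isTree Fin.val hrk,
    by decide +kernel, by decide +kernel, by decide +kernel, fun v => ?_⟩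
  have h1 : ∀ v, v ∈ bag (top v) := by decide +kernel
  have h2 : ∀ v s, v ∈ bag s → s ≠ top v → s ≠ 0 ∧ v ∈ bag (par s) := by decide +kernel
  exact Lib.helper5.PTree.sub_conn Fin.val hrk _ (top v) (h1 v) (h2 v)

open Pool.Agent.H.MP_de06d2_co in
lemma deep {V ι : Type} [Finite ι] (T : SimpleGraph ι)
    (hT : T.IsTree) (B : ι → Finset V)
    (h4 : ∀ v : V, (T.induce {i | v ∈ B i}).Connected) :
    ∃ (top : V → ι) (d : V → ℕ), (∀ v, v ∈ B (top v)) ∧
      ∀ u v, d u ≤ d v → ∀ j, u ∈ B j → v ∈ B j → u ∈ B (top v) := by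
  classical
  obtain ⟨r⟩ := hT.connected.nonempty
  have : ∀ v, ∃ t, v ∈ B t ∧ ∀ i, v ∈ B i → T.dist r t ≤ T.dist r i := by
    intro v
    obtain ⟨⟨i, hi⟩⟩ := (h4 v).nonempty
    exact Set.exists_min_image {i | v ∈ B i} (T.dist r) (Set.toFinite _) ⟨i, hi⟩
  choose top t1 t2 using this
  have key : ∀ u v, T.dist r (top u) ≤ T.dist r (top v) → ∀ n j, T.dist r j = n → u ∈ B j →
      v ∈ B j → u ∈ B (top v) := by
    intro u v huv n
    induction n using Nat.strong_induction_on with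
    | _ n ih =>
    intro j hj hu hv
    by_cases e : j = top v
    · rwa [← e]
    obtain ⟨a, a1, a2, a3⟩ := up_mem hT r (h4 v) hv (t1 v) (t2 v j hv) e
    have := t2 v a a1
    obtain ⟨b, b1, b2, b3⟩ := up_mem hT r (h4 u) hu (t1 u) (t2 u j hu)
      (fun e => by rw [← e] at huv; omega)
    obtain rfl := up_unique hT r a2 b2 a3 b3
    exact ih _ (by omega) a rfl b1 a1
  exact ⟨top, fun v => T.dist r (top v), t1, fun u v h j => key u v h _ j rfl⟩

lemma tw1 : ¬ (∃ (m : ℕ) (T : SimpleGraph (Fin m)) (B : Fin m → Finset (Fin 23)),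
      T.IsTree ∧ (∀ i, (B i).card ≤ 2) ∧ (∀ v, ∃ i, v ∈ B i) ∧
      (∀ u v, GG.Adj u v → ∃ i, u ∈ B i ∧ v ∈ B i) ∧
      (∀ v, (T.induce {i | v ∈ B i}).Connected)) := by
  rintro ⟨m, T, B, hT, h1, -, h3, h4⟩
  obtain ⟨a, a0, a1⟩ := h3 0 1 (by decide)
  obtain ⟨b, b0, b2⟩ := h3 0 2 (by decide)
  obtain ⟨c, c1, c2⟩ := h3 1 2 (by decide)
  obtain ⟨top, d, t1, key⟩ := deep T hT B h4
  have fin : ∀ i, 0 ∈ B i → 1 ∈ B i → 2 ∈ B i → False := by
    intro i x y z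
    have : ({0, 1, 2} : Finset (Fin 23)) ⊆ B i := by
      intro w hw
      simp only [mem_insert, mem_singleton] at hw
      rcases hw with rfl | rfl | rfl <;> assumption
    have h5 := (card_le_card this).trans (h1 i)
    exact absurd h5 (by decide)
  have : (d 1 ≤ d 0 ∧ d 2 ≤ d 0) ∨ (d 0 ≤ d 1 ∧ d 2 ≤ d 1) ∨ (d 0 ≤ d 2 ∧ d 1 ≤ d 2) := by omega
  rcases this with ⟨x, y⟩ | ⟨x, y⟩ | ⟨x, y⟩
  · exact fin _ (t1 0) (key _ _ x a a1 a0) (key _ _ y b b2 b0)
  · exact fin _ (key _ _ x a a0 a1) (t1 1) (key _ _ y c c2 c1)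
  · exact fin _ (key _ _ x b b0 b2) (key _ _ y c c1 c2) (t1 2)

lemma sigma : sInf {c : ℕ | ∃ S : Finset (Fin 23),
          (∀ u ∈ S, ∀ v ∈ S, ¬ GG.Adj u v) ∧
          c = S.card + {e ∈ GG.edgeSet | ∀ v ∈ e, v ∉ S}.ncard} ≤ 5 := by
  refine le_trans (Nat.sInf_le ?_) (show ({3, 4} : Finset (Fin 23)).card +
    {e ∈ GG.edgeSet | ∀ v ∈ e, v ∉ ({3, 4} : Finset (Fin 23))}.ncard ≤ 5 from ?_)
  · exact ⟨{3, 4}, by decide, rfl⟩
  have : {e ∈ GG.edgeSet | ∀ v ∈ e, v ∉ ({3, 4} : Finset (Fin 23))} ⊆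
      ((({s(0, 1), s(0, 2), s(1, 2)} : Finset (Sym2 (Fin 23))) : Set (Sym2 (Fin 23)))) := by
    rintro ⟨u, v⟩ ⟨h1, h2⟩
    have h3 := h2 u (Sym2.mem_mk_left u v)
    have h4 := h2 v (Sym2.mem_mk_right u v)
    have : ∀ u v : Fin 23, GG.Adj u v → u ∉ ({3, 4} : Finset (Fin 23)) →
        v ∉ ({3, 4} : Finset (Fin 23)) →
        s(u, v) ∈ ({s(0, 1), s(0, 2), s(1, 2)} : Finset (Sym2 (Fin 23))) := by decide +kernel
    exact this u v h1 h3 h4
  have h := Set.ncard_le_ncard this (Finset.finite_toSet _)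
  rw [Set.ncard_coe_finset] at h
  have h2 : ({s(0, 1), s(0, 2), s(1, 2)} : Finset (Sym2 (Fin 23))).card ≤ 3 := card_le_three
  have h3 : ({3, 4} : Finset (Fin 23)).card = 2 := by decide
  omega

/-- the triple with a point in each part. -/
def tri (m : ℕ) (p : Fin 9 × Fin m × Fin m) : Finset (Fin (2 * m + 9)) :=
  {⟨p.1, by omega⟩, ⟨9 + p.2.1, by omega⟩, ⟨9 + m + p.2.2, by omega⟩}

lemma mem_tri {m : ℕ} {p : Fin 9 × Fin m × Fin m} {a : Fin (2 * m + 9)} :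
    a ∈ tri m p ↔ a.val = p.1 ∨ a.val = 9 + p.2.1 ∨ a.val = 9 + m + p.2.2 := by
  simp [tri, Fin.ext_iff]

lemma tri_inj (m : ℕ) : Function.Injective (tri m) := by
  rintro ⟨a, b, c⟩ ⟨a', b', c'⟩ h
  have h1 : (⟨a, by omega⟩ : Fin (2 * m + 9)) ∈ tri m (a', b', c') := h ▸ mem_tri.2 (.inl rfl)
  have h2 : (⟨9 + b, by omega⟩ : Fin (2 * m + 9)) ∈ tri m (a', b', c') :=
    h ▸ mem_tri.2 (.inr (.inl rfl))
  have h3 : (⟨9 + m + c, by omega⟩ : Fin (2 * m + 9)) ∈ tri m (a', b', c') :=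
    h ▸ mem_tri.2 (.inr (.inr rfl))
  rw [mem_tri] at h1 h2 h3
  simp only at h1 h2 h3
  have := a.2; have := b.2; have := c.2; have := a'.2; have := b'.2; have := c'.2
  refine Prod.ext (Fin.ext ?_) (Prod.ext (Fin.ext ?_) (Fin.ext ?_)) <;> simp only <;> omega

lemma tri_card (m : ℕ) (p : Fin 9 × Fin m × Fin m) : (tri m p).card = 3 := by
  have := p.1.2; have := p.2.1.2; have := p.2.2.2
  refine card_eq_three.2 ⟨_, _, _, ?_, ?_, ?_, rfl⟩ <;> simp only [ne_eq, Fin.mk.injEq] <;> omega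

def L1 (j : Fin 9) : Fin 23 := ⟨5 + j, by omega⟩

def L2 (j : Fin 9) : Fin 23 := ⟨14 + j, by omega⟩

def pt (m a : ℕ) : ℕ := if a < 9 then 0 else if a < 9 + m then 1 else 2

lemma rain {m : ℕ} {p : Fin 9 × Fin m × Fin m} {a b c : Fin (2 * m + 9)} (hab : a ≠ b)
    (h : tri m p = {a, b, c}) :
    pt m a ≠ pt m b ∧ (a.val < 9 ∨ b.val < 9 ∨ c.val < 9) := by
  have := p.1.2; have := p.2.1.2; have := p.2.2.2
  have h1 : a ∈ tri m p := by rw [h]; simp
  have h2 : b ∈ tri m p := by rw [h]; simp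
  have h3 : (⟨p.1, by omega⟩ : Fin (2 * m + 9)) ∈ ({a, b, c} : Finset _) :=
    h ▸ mem_tri.2 (.inl rfl)
  rw [mem_tri] at h1 h2
  simp only [mem_insert, mem_singleton, Fin.ext_iff] at h3
  have h4 : a.val ≠ b.val := fun e => hab (Fin.ext e)
  refine ⟨?_, by omega⟩
  unfold pt
  split_ifs <;> omega

lemma free (m : ℕ) : ¬ (∃ (φ : Fin 23 → Fin (2 * m + 9)) (w : Fin 23 → Fin 23 → Fin (2 * m + 9)),
      Function.Injective φ ∧
      (∀ u v, GG.Adj u v → (∀ x, w u v ≠ φ x) ∧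
        ({φ u, φ v, w u v} : Finset (Fin (2 * m + 9))) ∈ univ.image (tri m)) ∧
      (∀ u v u' v', GG.Adj u v → GG.Adj u' v' → w u v = w u' v' →
        (u = u' ∧ v = v') ∨ (u = v' ∧ v = u'))) := by
  rintro ⟨φ, w, hφ, h1, h2⟩
  have R : ∀ u v, GG.Adj u v → pt m (φ u) ≠ pt m (φ v) ∧
      ((φ u).val < 9 ∨ (φ v).val < 9 ∨ (w u v).val < 9) := by
    intro u v h
    obtain ⟨p, -, hp⟩ := mem_image.1 (h1 u v h).2
    exact rain (fun e => h.ne (hφ e)) hp
  have hub : ∀ (x h : Fin 23) (L : Fin 9 → Fin 23), (φ x).val < 9 → GG.Adj h x →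
      Function.Injective L → (∀ j, GG.Adj h (L j)) → (∀ j, L j ≠ x) → False := by
    intro x h L hx hh hL hA hN
    have h0 : ¬ (φ h).val < 9 := fun e => (R h x hh).1 (by simp [pt, e, hx])
    let s : Option (Fin 9) → Fin (2 * m + 9) := fun o =>
      o.elim (φ x) fun j => if (φ (L j)).val < 9 then φ (L j) else w h (L j)
    have s1 : ∀ o, (s o).val < 9 := by
      rintro (_ | j)
      · exact hx
      · have := (R h (L j) (hA j)).2
        simp only [s, Option.elim]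
        split_ifs <;> omega
    have s3 : ∀ j, s (some j) ≠ φ x := by
      intro j e
      simp only [s, Option.elim] at e
      split_ifs at e
      · exact hN j (hφ e)
      · exact (h1 _ _ (hA j)).1 _ e
    have s2 : Function.Injective s := by
      rintro (_ | i) (_ | j) e
      · rfl
      · exact absurd e.symm (s3 j)
      · exact absurd e (s3 i)
      · simp only [s, Option.elim] at e
        split_ifs at e
        · rw [hL (hφ e)]
        · exact absurd e.symm ((h1 _ _ (hA j)).1 _)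
        · exact absurd e ((h1 _ _ (hA i)).1 _)
        · rcases h2 _ _ _ _ (hA i) (hA j) e with ⟨-, e⟩ | ⟨e, -⟩
          · rw [hL e]
          · exact absurd e (hA j).ne
    have := Fintype.card_le_of_injective (fun o => (⟨(s o).val, s1 o⟩ : Fin 9))
      fun a b e => s2 (Fin.ext (congrArg Fin.val e :))
    simp at this
  have a := (R 0 1 (by decide)).1
  have b := (R 0 2 (by decide)).1
  have c := (R 1 2 (by decide)).1
  have : (φ 0).val < 9 ∨ (φ 1).val < 9 ∨ (φ 2).val < 9 := by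
    unfold pt at a b c
    split_ifs at a b c <;> omega
  rcases this with h | h | h
  · exact hub 0 3 L1 h (by decide) (by decide) (by decide) (by decide)
  · exact hub 1 3 L1 h (by decide) (by decide) (by decide) (by decide)
  · exact hub 2 4 L2 h (by decide) (by decide) (by decide) (by decide)

lemma asym (f : ℕ → ℕ) (s : ℕ) (hs : s ≤ 5) (hf : ∀ m, 9 * m ^ 2 ≤ f (2 * m + 9)) :
    ¬ Asymptotics.IsEquivalent Filter.atTop (fun n : ℕ => (f n : ℝ))
      (fun n : ℕ => ((s : ℝ) - 1) * ((n.choose 2 : ℕ) : ℝ)) := by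
  intro h
  have h1 := h.isLittleO.def (c := 1 / 100) (by norm_num)
  obtain ⟨N, hN⟩ := Filter.eventually_atTop.1 h1
  have h2 := hN (2 * (N + 100) + 9) (by omega)
  have h3 : ((9 * (N + 100) ^ 2 : ℕ) : ℝ) ≤ f (2 * (N + 100) + 9) := by exact_mod_cast hf _
  simp only [Pi.sub_apply, Real.norm_eq_abs] at h2
  rw [Nat.cast_choose_two] at h2
  push_cast at h2 h3
  have hN0 : (0 : ℝ) ≤ N := Nat.cast_nonneg N
  have s0 : (0 : ℝ) ≤ s := Nat.cast_nonneg s
  have s5 : (s : ℝ) ≤ 5 := by exact_mod_cast hs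
  set C : ℝ := (2 * ((N : ℝ) + 100) + 9) * (2 * (N + 100) + 9 - 1) / 2 with hC
  have C0 : 0 ≤ C := by rw [hC]; nlinarith
  have a1 : |((s : ℝ) - 1) * C| ≤ 4 * C := by
    rw [abs_le]; constructor <;> nlinarith
  have a2 := le_abs_self ((f (2 * (N + 100) + 9) : ℝ) - ((s : ℝ) - 1) * C)
  have a3 := le_abs_self (((s : ℝ) - 1) * C)
  have a4 : 101 / 100 * (4 * C) < 9 * ((N : ℝ) + 100) ^ 2 := by rw [hC]; nlinarith
  linarith

end Pool.Agent.H.MP_7c3aa9_co.A
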